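import Mathlib

/-!
Selection principles `S₁(Γ_h, O)` and `S₁(Γ_h, Γ)`, and recursion of length the continuum under
the continuum hypothesis.
-/

namespace Pool.Agent.R510.SG

open Set Filter

/-- `V` is an `h`-input for `X`: all `V n m` are open and for all `x`, `n` at most `h n` of the
indices `m` have `x` outside `V n m`. -/
def IsInput (X : Type) [TopologicalSpace X] (h : ℕ → ℕ) (V : ℕ → ℕ → Set X) : Prop :=
  (∀ n m, IsOpen (V n m)) ∧ ∀ x n, {m : ℕ | x ∉ V n m}.encard ≤ h n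

/-- The principle `S₁(Γ_h, O)` for `X`. -/
def S1O (X : Type) [TopologicalSpace X] (h : ℕ → ℕ) : Prop :=
  ∀ V : ℕ → ℕ → Set X, IsInput X h V → ∃ d : ℕ → ℕ, ∀ x, ∃ n, x ∈ V n (d n)

/-- The principle `S₁(Γ_h, Γ)` for `X`. -/
def S1G (X : Type) [TopologicalSpace X] (h : ℕ → ℕ) : Prop :=
  ∀ V : ℕ → ℕ → Set X, IsInput X h V → ∃ d : ℕ → ℕ, ∀ x, ∀ᶠ n in atTop, x ∈ V n (d n)

/-- Well-ordering with countable initial segments. -/
theorem exists_wo (CH : Cardinal.continuum.{0} = Cardinal.aleph 1) (T : Type)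
    (hT : Cardinal.mk T ≤ Cardinal.continuum) :
    ∃ r : T → T → Prop, IsWellOrder T r ∧ ∀ x, {y | r y x}.Countable := by
  obtain ⟨r, wo, hr⟩ := Cardinal.ord_eq T
  refine ⟨r, wo, fun x => ?_⟩
  rw [Cardinal.countable_iff_lt_aleph_one]
  have h1 : (Ordinal.typein r x).card < Cardinal.mk T := Cardinal.card_typein_lt x hr
  have h2 : Cardinal.mk {y | r y x} = (Ordinal.typein r x).card := (Ordinal.card_typein x)
  have h3 : Cardinal.mk T ≤ Cardinal.aleph 1 := by rw [← CH]; exact hT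
  rw [h2]
  exact lt_of_lt_of_le h1 h3

/-- Transfinite recursion with choice. -/
theorem exists_rec {T Y : Type} (r : T → T → Prop) (hwf : WellFounded r)
    (P : (a : T) → ((b : T) → r b a → Y) → Y → Prop) (h : ∀ a f, ∃ y, P a f y) :
    ∃ z : T → Y, ∀ a, P a (fun b _ => z b) (z a) := by
  classical
  choose F hF using h
  refine ⟨hwf.fix F, fun a => ?_⟩
  have h1 := hwf.fix_eq F a
  rw [h1]
  exact hF a _

end Pool.Agent.R510.SG
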