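import Pool.Agent.R510.SG.SpaceA

/-!
The key lemma of part A: choice of a generic selector.
-/

namespace Pool.Agent.R510.SG

open Set Filter Topology

/-- The restriction of `D` to the rows below `j`. -/
def trunc (j : ℕ) (D : CS) : CS := fun x => decide (x.1 < j) && D x

theorem continuous_trunc (j : ℕ) : Continuous (trunc j) := by
  refine continuous_pi fun x => ?_
  by_cases h : x.1 < j
  · simpa [trunc, h] using (continuous_apply x : Continuous fun D : CS => D x)
  · simpa [trunc, h] using (continuous_const : Continuous fun _ : CS => false)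

theorem trunc_apply {j : ℕ} {D : CS} {x : ℕ × ℕ} (h : x.1 < j) : trunc j D x = D x := by
  simp [trunc, h]

theorem trunc_card (j q : ℕ) (D : CS) (hD : ∀ a, (row D a).encard ≤ (q : ℕ∞)) :
    {x | trunc j D x = true}.encard ≤ ((q * j : ℕ) : ℕ∞) := by
  have h1 : {x | trunc j D x = true} ⊆ ⋃ a ∈ Finset.range j, (fun v => (a, v)) '' row D a := by
    rintro ⟨a, v⟩ hx
    have h2 : a < j ∧ D (a, v) = true := by simpa [trunc] using hx
    simp only [mem_iUnion]
    exact ⟨a, Finset.mem_range.2 h2.1, v, h2.2, rfl⟩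
  refine (Set.encard_le_encard h1).trans ((Finset.set_encard_biUnion_le _ _).trans ?_)
  have h3 : ∀ a ∈ Finset.range j, ((fun v => (a, v)) '' row D a).encard ≤ (q : ℕ∞) :=
    fun a _ => (Set.encard_image_le _ _).trans (hD a)
  refine (Finset.sum_le_sum h3).trans ?_
  rw [Finset.sum_const, Finset.card_range]
  simp [mul_comm]

/-- The closure of the set of all `D` of a given type with `PP k p D` inside `C`. -/
def TT (g' : ℕ → ℕ) (k p q : ℕ) (σ : CS) (C : Set CS) : Set CS :=
  closure {D | Adm g' q D ∧ (∀ a < k, ∀ v < k, D (a, v) = σ (a, v)) ∧ PP g' k p D ⊆ C}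

theorem TT_sub (g' : ℕ → ℕ) (k p q : ℕ) (σ : CS) (C : Set CS) {D : CS}
    (hD : D ∈ TT g' k p q σ C) : Adm g' q D ∧ ∀ a < k, ∀ v < k, D (a, v) = σ (a, v) := by
  have h1 : IsClosed {D : CS | Adm g' q D ∧ ∀ a < k, ∀ v < k, D (a, v) = σ (a, v)} := by
    have : {D : CS | Adm g' q D ∧ ∀ a < k, ∀ v < k, D (a, v) = σ (a, v)} =
        {D : CS | Adm g' q D} ∩ ⋂ a, ⋂ (_ : a < k), ⋂ v, ⋂ (_ : v < k),
          {D : CS | D (a, v) = σ (a, v)} := by
      ext y; simp
    rw [this]
    refine (isClosed_Adm g' q).inter ?_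
    exact isClosed_iInter fun a => isClosed_iInter fun _ => isClosed_iInter fun v =>
      isClosed_iInter fun _ => isClosed_eq (continuous_apply _) continuous_const
  have h2 : {D | Adm g' q D ∧ (∀ a < k, ∀ v < k, D (a, v) = σ (a, v)) ∧ PP g' k p D ⊆ C} ⊆
      {D : CS | Adm g' q D ∧ ∀ a < k, ∀ v < k, D (a, v) = σ (a, v)} :=
    fun D hD => ⟨hD.1, hD.2.1⟩
  exact closure_minimal h2 h1 hD

theorem finite_row {q : ℕ} {D : CS} (a : ℕ) (hD : (row D a).encard ≤ (q : ℕ∞)) :
    (row D a).Finite := Set.finite_of_encard_le_coe hD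

/-- Claim 1. -/
theorem claim1 {g' : ℕ → ℕ} {k p q j : ℕ} (hkj : k ≤ j) (hj : ∀ a ≥ j, p + q ≤ g' a) {σ : CS}
    {C : Set CS} (hC : IsClosed C) {D y : CS} (hD : D ∈ TT g' k p q σ C)
    (h1 : ∀ a < j, ∀ v, y (a, v) = D (a, v)) (h2 : ∀ x, D x = true → y x = true)
    (h3 : ∀ a ≥ j, (row y a).encard ≤ ((g' a - p - q : ℕ) : ℕ∞)) : y ∈ C := by
  have hDA := TT_sub _ _ _ _ _ _ hD
  let φ : CS → CS := fun D' x => y x || D' x
  have hφ : Continuous φ := by
    refine continuous_pi fun x => ?_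
    cases h : y x with
    | false => simpa [φ, h] using (continuous_apply x : Continuous fun D : CS => D x)
    | true => simpa [φ, h] using (continuous_const : Continuous fun _ : CS => true)
  have hφD : φ D = y := by
    funext x
    rw [Bool.eq_iff_iff]
    simp only [φ, Bool.or_eq_true]
    exact ⟨fun h => h.elim id (h2 x), Or.inl⟩
  let t : Set (ℕ × ℕ) := ⋃ a ∈ Finset.range j, (fun v => (a, v)) '' row D a
  have ht : t.Finite := by
    refine Set.Finite.biUnion (Finset.finite_toSet _) fun a _ => ?_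
    exact (finite_row a (hDA.1 a).2).image _
  have hU := isOpen_sup (F := D) ht
  set U := {D' : CS | ∀ x ∈ t, D x = true → D' x = true} with hUdef
  have hDU : D ∈ U := fun x _ h => h
  set B := {D | Adm g' q D ∧ (∀ a < k, ∀ v < k, D (a, v) = σ (a, v)) ∧ PP g' k p D ⊆ C} with hB
  have hmem : D ∈ closure (B ∩ U) := by
    rw [mem_closure_iff]
    intro O hO hDO
    obtain ⟨w, hw1, hw2⟩ := mem_closure_iff.1 hD (O ∩ U) (hO.inter hU) ⟨hDO, hDU⟩
    exact ⟨w, hw1.1, hw2, hw1.2⟩
  have hmap : MapsTo φ (B ∩ U) C := by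
    rintro D' ⟨⟨hA', hσ', hP'⟩, hU'⟩
    apply hP'
    have hDD' : ∀ a < j, ∀ v, D (a, v) = true → D' (a, v) = true := by
      intro a ha v hv
      apply hU' (a, v) _ hv
      simp only [t, mem_iUnion]
      exact ⟨a, Finset.mem_range.2 ha, v, hv, rfl⟩
    have heq : ∀ a < j, ∀ v, φ D' (a, v) = D' (a, v) := by
      intro a ha v
      rw [Bool.eq_iff_iff]
      simp only [φ, Bool.or_eq_true]
      refine ⟨fun h => h.elim (fun h' => ?_) id, Or.inr⟩
      rw [h1 a ha v] at h'
      exact hDD' a ha v h'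
    refine ⟨fun a ha v _ => heq a (lt_of_lt_of_le ha hkj) v, fun x hx => ?_, fun a => ?_⟩
    · simp only [φ, hx, Bool.or_true]
    · by_cases ha : a < j
      · have : row (φ D') a = row D' a := by
          ext v
          show φ D' (a, v) = true ↔ D' (a, v) = true
          rw [heq a ha v]
        rw [this]
        exact le_sup_left
      · have ha' : j ≤ a := not_lt.1 ha
        have h4 : row (φ D') a ⊆ row y a ∪ row D' a := by
          intro v hv
          have : φ D' (a, v) = true := hv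
          simp only [φ, Bool.or_eq_true] at this
          exact this
        refine le_trans ?_ le_sup_right
        refine (Set.encard_le_encard h4).trans ((Set.encard_union_le _ _).trans ?_)
        refine (add_le_add (h3 a ha') (hA' a).2).trans ?_
        have h5 := hj a ha'
        have h6 : g' a - p - q + q ≤ g' a - p := by omega
        exact_mod_cast h6
  have := map_mem_closure hφ hmem hmap
  rw [hφD, hC.closure_eq] at this
  exact this

/-- Claim 2. -/
theorem claim2 {g' : ℕ → ℕ} {k p q j G : ℕ} (hkj : k ≤ j)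
    (hj : ∀ a ≥ j, p + q + (G + 1) * q ≤ g' a) {σ : CS} {C : ℕ → Set CS}
    (hC : ∀ m, IsClosed (C m)) {X : Set CS}
    (hX : ∀ k p q D, Adm g' q D → ∃ x ∈ X, x ∈ PP g' k p D)
    (hXC : ∀ x ∈ X, {m | x ∈ C m}.encard ≤ (G : ℕ∞)) (F : CS) :
    {m | F ∈ trunc j '' TT g' k p q σ (C m)}.Finite := by
  classical
  by_contra hinf
  have hinf' : {m | F ∈ trunc j '' TT g' k p q σ (C m)}.Infinite := hinf
  obtain ⟨M, hM, hcard⟩ := hinf'.exists_subset_card_eq (G + 1)
  have hM' : ∀ m ∈ M, ∃ D, D ∈ TT g' k p q σ (C m) ∧ trunc j D = F := fun m hm => hM hm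
  choose! DD hDD1 hDD2 using hM'
  have hDA : ∀ m ∈ M, Adm g' q (DD m) := fun m hm => (TT_sub _ _ _ _ _ _ (hDD1 m hm)).1
  let D' : CS := fun x => decide (∃ m ∈ M, DD m x = true)
  have hD' : ∀ x, D' x = true ↔ ∃ m ∈ M, DD m x = true := by
    intro x; simp [D']
  have hrow' : ∀ a, row D' a ⊆ ⋃ m ∈ M, row (DD m) a := by
    intro a v hv
    obtain ⟨m, hm, h⟩ := (hD' _).1 hv
    simp only [mem_iUnion]
    exact ⟨m, hm, h⟩
  have hcard' : ∀ a, (row D' a).encard ≤ (((G + 1) * q : ℕ) : ℕ∞) := by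
    intro a
    refine (Set.encard_le_encard (hrow' a)).trans ((Finset.set_encard_biUnion_le _ _).trans ?_)
    refine (Finset.sum_le_sum fun m hm => (hDA m hm a).2).trans ?_
    rw [Finset.sum_const, hcard]
    simp
  have hrowlt : ∀ a < j, ∀ m ∈ M, ∀ v, D' (a, v) = DD m (a, v) := by
    intro a ha m hm v
    have key : ∀ m ∈ M, DD m (a, v) = F (a, v) := by
      intro m hm
      rw [← hDD2 m hm, trunc_apply ha]
    rw [Bool.eq_iff_iff, hD']
    constructor
    · rintro ⟨m', hm', h⟩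
      rw [key m hm, ← key m' hm']; exact h
    · exact fun h => ⟨m, hm, h⟩
  have hMne : M.Nonempty := by
    rw [← Finset.card_pos, hcard]; omega
  obtain ⟨m0, hm0⟩ := hMne
  have hA' : Adm g' ((G + 1) * q) D' := by
    intro a
    refine ⟨?_, hcard' a⟩
    by_cases ha : a < j
    · have : row D' a = row (DD m0) a := by
        ext v
        show D' (a, v) = true ↔ DD m0 (a, v) = true
        rw [hrowlt a ha m0 hm0 v]
      rw [this]
      exact (hDA m0 hm0 a).1
    · refine (hcard' a).trans ?_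
      have := hj a (not_lt.1 ha)
      have h2 : (G + 1) * q ≤ g' a := by omega
      exact_mod_cast h2
  obtain ⟨x, hxX, hx⟩ := hX k (p + q + ∑ a ∈ Finset.range j, g' a) ((G + 1) * q) D' hA'
  have hxC : ∀ m ∈ M, x ∈ C m := by
    intro m hm
    have hj' : ∀ a ≥ j, p + q ≤ g' a := fun a ha => by have := hj a ha; omega
    refine claim1 hkj hj' (hC m) (hDD1 m hm) ?_ ?_ ?_
    · intro a ha v
      rw [← hrowlt a ha m hm v]
      have hsub : row D' a ⊆ row x a := fun v hv => hx.2.1 _ hv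
      have hle : (row x a).encard ≤ (row D' a).encard := by
        refine (hx.2.2 a).trans (sup_le le_rfl ?_)
        have h1 : g' a ≤ ∑ a ∈ Finset.range j, g' a :=
          Finset.single_le_sum (f := g') (fun _ _ => Nat.zero_le _) (Finset.mem_range.2 ha)
        have h2 : g' a - (p + q + ∑ a ∈ Finset.range j, g' a) = 0 := by omega
        rw [h2]
        simp
      have heq : row D' a = row x a :=
        (Set.finite_of_encard_le_coe (hcard' a)).eq_of_subset_of_encard_le hsub hle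
      rw [Bool.eq_iff_iff]
      show v ∈ row x a ↔ v ∈ row D' a
      rw [heq]
    · intro z hz
      exact hx.2.1 z ((hD' z).2 ⟨m, hm, hz⟩)
    · intro a ha
      refine (hx.2.2 a).trans (sup_le ((hcard' a).trans ?_) ?_)
      · have := hj a ha
        have h2 : (G + 1) * q ≤ g' a - p - q := by omega
        exact_mod_cast h2
      · have h2 : g' a - (p + q + ∑ a ∈ Finset.range j, g' a) ≤ g' a - p - q := by omega
        exact_mod_cast h2
  have h1 : (M : Set ℕ) ⊆ {m | x ∈ C m} := fun m hm => hxC m hm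
  have h2 := (Set.encard_le_encard h1).trans (hXC x hxX)
  rw [Set.encard_coe_eq_coe_finsetCard, hcard] at h2
  have h3 : G + 1 ≤ G := by exact_mod_cast h2
  omega

/-- Claim 3. -/
theorem claim3 {g g' : ℕ → ℕ} {k p q j N0 : ℕ} (hkj : k ≤ j) {L : ℕ}
    (hj : ∀ a ≥ j, ∀ n < N0 + L, p + q + (g n + 1) * q ≤ g' a) {σ : CS}
    {C : ℕ → ℕ → Set CS} (hC : ∀ n m, IsClosed (C n m)) {X : Set CS}
    (hX : ∀ k p q D, Adm g' q D → ∃ x ∈ X, x ∈ PP g' k p D)
    (hXC : ∀ x ∈ X, ∀ n, {m | x ∈ C n m}.encard ≤ (g n : ℕ∞)) :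
    ∀ i ≤ L, ∃ m : ℕ → ℕ, ∀ F : CS, (∀ i' < i, F ∈ trunc j '' TT g' k p q σ (C (N0 + i') (m i'))) →
      (i : ℕ∞) ≤ {x | F x = true}.encard := by
  classical
  intro i
  induction i with
  | zero => exact fun _ => ⟨fun _ => 0, fun F _ => by simp⟩
  | succ i ih =>
    intro hi
    obtain ⟨m, hm⟩ := ih (by omega)
    have hTc : ∀ n l, IsClosed (trunc j '' TT g' k p q σ (C n l)) := fun n l =>
      ((isClosed_closure.isCompact).image (continuous_trunc j)).isClosed
    set 𝓕 : Set CS := {F | (∀ i' < i, F ∈ trunc j '' TT g' k p q σ (C (N0 + i') (m i'))) ∧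
      {x | F x = true}.encard ≤ (i : ℕ∞)} with h𝓕
    have hcl : IsClosed 𝓕 := by
      have : 𝓕 = (⋂ i', ⋂ (_ : i' < i), trunc j '' TT g' k p q σ (C (N0 + i') (m i'))) ∩
          {F : CS | {x | F x = true}.encard ≤ (i : ℕ∞)} := by
        ext F; simp only [h𝓕, mem_setOf_eq, mem_inter_iff, mem_iInter]
      rw [this]
      exact (isClosed_iInter fun i' => isClosed_iInter fun _ => hTc _ _).inter (isClosed_card i)
    have hfin : 𝓕.Finite := by
      apply hcl.isCompact.finite
      rw [isDiscrete_iff_forall_mem_exists_isOpen]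
      intro F hF
      have hFfin : {x | F x = true}.Finite := Set.finite_of_encard_le_coe hF.2
      refine ⟨_, isOpen_sup (F := F) hFfin, ?_⟩
      apply Set.Subset.antisymm
      · rintro F' ⟨h1, h2⟩
        rw [Set.mem_singleton_iff]
        have hsub : {x | F x = true} ⊆ {x | F' x = true} := fun x hx => h1 x hx hx
        have hle : {x | F' x = true}.encard ≤ {x | F x = true}.encard :=
          h2.2.trans (hm F hF.1)
        have heq := hFfin.eq_of_subset_of_encard_le hsub hle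
        funext x
        rw [Bool.eq_iff_iff]
        exact (Set.ext_iff.1 heq x).symm
      · rw [Set.singleton_subset_iff]
        exact ⟨fun x _ h => h, hF⟩
    have hbad : (⋃ F ∈ 𝓕, {l | F ∈ trunc j '' TT g' k p q σ (C (N0 + i) l)}).Finite := by
      refine hfin.biUnion fun F _ => ?_
      exact claim2 (G := g (N0 + i)) hkj (fun a ha => hj a ha (N0 + i) (by omega))
        (fun l => hC _ l) hX (fun x hx => hXC x hx _) F
    obtain ⟨l, hl⟩ := hbad.exists_notMem
    refine ⟨Function.update m i l, fun F hF => ?_⟩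
    have h1 : ∀ i' < i, F ∈ trunc j '' TT g' k p q σ (C (N0 + i') (m i')) := by
      intro i' hi'
      have := hF i' (by omega)
      rwa [Function.update_of_ne (ne_of_lt hi')] at this
    have h2 := hm F h1
    by_contra hcon
    have h3 : {x | F x = true}.encard < ((i + 1 : ℕ) : ℕ∞) := not_le.1 hcon
    have h4 : {x | F x = true}.encard ≤ (i : ℕ∞) := by
      have h5 : {x | F x = true}.encard < (i : ℕ∞) + 1 := by exact_mod_cast h3
      exact Order.le_of_lt_add_one h5
    apply hl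
    simp only [mem_iUnion]
    refine ⟨F, ⟨h1, h4⟩, ?_⟩
    have := hF i (by omega)
    rw [Function.update_self] at this
    exact this

/-- `d` is good for the code `C`: no set `PP k p D` lies in all `C n (d n)`. -/
def Good (g' : ℕ → ℕ) (C : ℕ → ℕ → Set CS) (d : ℕ → ℕ) : Prop :=
  ∀ k p q D, Adm g' q D → ¬ PP g' k p D ⊆ ⋂ n, C n (d n)

/-- The growth condition relating `g` and `g'`. -/
def Growth (g g' : ℕ → ℕ) : Prop :=
  ∀ k p q N0, ∃ j ≥ k, ∀ a ≥ j, ∀ n < N0 + (q * j + 1), p + q + (g n + 1) * q ≤ g' a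

/-- Key lemma. -/
theorem key_lemma {g g' : ℕ → ℕ} (hg : Growth g g') {C : ℕ → ℕ → Set CS}
    (hC : ∀ n m, IsClosed (C n m)) {X : Set CS}
    (hX : ∀ k p q D, Adm g' q D → ∃ x ∈ X, x ∈ PP g' k p D)
    (hXC : ∀ x ∈ X, ∀ n, {m | x ∈ C n m}.encard ≤ (g n : ℕ∞)) {X0 : Set CS} (hX0 : X0 ⊆ X)
    (hX0c : X0.Countable) :
    ∃ d, Good g' C d ∧ ∀ x ∈ X0, ∃ n, x ∉ C n (d n) := by
  classical
  let G : (ℕ × ℕ × ℕ) × Finset (ℕ × ℕ) → Set (ℕ → ℕ) := fun τ =>
    {d | ∃ L, ∀ D, Adm g' τ.1.2.2 D →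
      (∀ a < τ.1.1, ∀ v < τ.1.1, D (a, v) = decide ((a, v) ∈ τ.2)) →
      ∃ n < L, ¬ PP g' τ.1.1 τ.1.2.1 D ⊆ C n (d n)}
  have hGo : ∀ τ, IsOpen (G τ) := by
    intro τ
    rw [isOpen_iff_forall_mem_open]
    rintro d ⟨L, hL⟩
    refine ⟨_, ?_, cyl_open d L, fun _ _ => rfl⟩
    intro d' hd'
    refine ⟨L, fun D h1 h2 => ?_⟩
    obtain ⟨n, hn, h3⟩ := hL D h1 h2
    refine ⟨n, hn, ?_⟩
    rw [hd' n hn]; exact h3
  have hGd : ∀ τ, Dense (G τ) := by
    rintro ⟨⟨k, p, q⟩, σ⟩
    rw [dense_iff_inter_open]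
    rintro O hO ⟨d0, hd0⟩
    obtain ⟨N0, hN0⟩ := exists_cyl hO hd0
    obtain ⟨j, hjk, hj⟩ := hg k p q N0
    obtain ⟨m, hm⟩ := claim3 (g := g) (N0 := N0) (L := q * j + 1)
      (σ := fun x => decide (x ∈ σ)) hjk hj hC hX hXC (q * j + 1) le_rfl
    refine ⟨fun n => if n < N0 then d0 n else m (n - N0), hN0 fun n hn => ?_, ?_⟩
    · simp [hn]
    · refine ⟨N0 + (q * j + 1), fun D h1 h2 => ?_⟩
      by_contra hcon
      push Not at hcon
      have h3 : ∀ i' < q * j + 1, trunc j D ∈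
          trunc j '' TT g' k p q (fun x => decide (x ∈ σ)) (C (N0 + i') (m i')) := by
        intro i' hi'
        refine ⟨D, subset_closure ⟨h1, h2, ?_⟩, rfl⟩
        have := hcon (N0 + i') (by omega)
        rw [if_neg (by omega), Nat.add_sub_cancel_left] at this
        exact this
      have h4 := (hm _ h3).trans (trunc_card j q D fun a => (h1 a).2)
      have h5 : q * j + 1 ≤ q * j := by exact_mod_cast h4
      omega
  let H : X0 → Set (ℕ → ℕ) := fun x => {d | ∃ n, x.1 ∉ C n (d n)}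
  have hHo : ∀ x, IsOpen (H x) := by
    intro x
    rw [isOpen_iff_forall_mem_open]
    rintro d ⟨n, hn⟩
    refine ⟨_, ?_, cyl_open d (n + 1), fun _ _ => rfl⟩
    intro d' hd'
    refine ⟨n, ?_⟩
    rw [hd' n (Nat.lt_succ_self n)]; exact hn
  have hHd : ∀ x, Dense (H x) := by
    intro x
    rw [dense_iff_inter_open]
    rintro O hO ⟨d0, hd0⟩
    obtain ⟨N0, hN0⟩ := exists_cyl hO hd0
    have hfin : {m | x.1 ∈ C N0 m}.Finite :=
      Set.finite_of_encard_le_coe (hXC x.1 (hX0 x.2) N0)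
    obtain ⟨m, hm⟩ := hfin.exists_notMem
    refine ⟨Function.update d0 N0 m, hN0 fun n hn => Function.update_of_ne (ne_of_lt hn) _ _, N0, ?_⟩
    rw [Function.update_self]
    exact hm
  have : Countable X0 := hX0c.to_subtype
  have hd := dense_iInter_of_isOpen (f := fun s : ((ℕ × ℕ × ℕ) × Finset (ℕ × ℕ)) ⊕ X0 =>
    Sum.elim G H s) (by rintro (τ | x); exacts [hGo τ, hHo x])
    (by rintro (τ | x); exacts [hGd τ, hHd x])
  obtain ⟨d, hd⟩ := hd.nonempty
  rw [mem_iInter] at hd
  refine ⟨d, ?_, fun x hx => hd (Sum.inr ⟨x, hx⟩)⟩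
  intro k p q D hD hsub
  obtain ⟨L, hL⟩ := hd (Sum.inl ((k, p, q),
    (Finset.range k ×ˢ Finset.range k).filter fun x => D x = true))
  obtain ⟨n, _, hn⟩ := hL D hD (by
    intro a ha v hv
    rw [Bool.eq_iff_iff]
    simp [ha, hv])
  exact hn (hsub.trans (iInter_subset _ n))

end Pool.Agent.R510.SG
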