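import Pool.Agent.R510.SG.Defs

/-!
A Lusin set in `ℕ → ℕ` under the continuum hypothesis.
-/

namespace Pool.Agent.R510.SG

open Set Filter Topology

theorem card_closed_le (X : Type) [TopologicalSpace X] [SecondCountableTopology X] :
    Cardinal.mk {M : Set X // IsClosed M} ≤ Cardinal.continuum := by
  have hB := TopologicalSpace.isBasis_countableBasis X
  have hinj : Function.Injective (fun (M : {M : Set X // IsClosed M}) =>
      {b : TopologicalSpace.countableBasis X | (b : Set X) ⊆ M.1ᶜ}) := by
    have key : ∀ M M' : {M : Set X // IsClosed M},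
        {b : TopologicalSpace.countableBasis X | (b : Set X) ⊆ M.1ᶜ} =
          {b : TopologicalSpace.countableBasis X | (b : Set X) ⊆ M'.1ᶜ} → M.1ᶜ ⊆ M'.1ᶜ := by
      intro M M' h x hx
      obtain ⟨b, hb, hxb, hbM⟩ := hB.exists_subset_of_mem_open hx M.2.isOpen_compl
      have : (⟨b, hb⟩ : TopologicalSpace.countableBasis X) ∈
          {b : TopologicalSpace.countableBasis X | (b : Set X) ⊆ M.1ᶜ} := hbM
      rw [h] at this
      exact this hxb
    intro M M' h
    apply Subtype.ext
    exact compl_injective (Subset.antisymm (key M M' h) (key M' M h.symm))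
  have h1 := Cardinal.mk_le_of_injective hinj
  refine h1.trans ?_
  rw [Cardinal.mk_set]
  have h2 : Cardinal.mk (TopologicalSpace.countableBasis X) ≤ Cardinal.aleph0 := by
    rw [Cardinal.le_aleph0_iff_set_countable]
    exact TopologicalSpace.countable_countableBasis X
  calc (2 : Cardinal) ^ Cardinal.mk (TopologicalSpace.countableBasis X)
      ≤ 2 ^ Cardinal.aleph0 := Cardinal.power_le_power_left two_ne_zero h2
    _ = Cardinal.continuum := Cardinal.two_power_aleph0

theorem cyl_open (z : ℕ → ℕ) (k : ℕ) : IsOpen {w : ℕ → ℕ | ∀ n < k, w n = z n} := by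
  have : {w : ℕ → ℕ | ∀ n < k, w n = z n} = ⋂ n ∈ Finset.range k, {w : ℕ → ℕ | w n = z n} := by
    ext w; simp
  rw [this]
  apply isOpen_biInter_finset
  intro n _
  have h : IsOpen ((fun w : ℕ → ℕ => w n) ⁻¹' {z n}) :=
    (isOpen_discrete _).preimage (continuous_apply n)
  exact h

theorem exists_cyl {U : Set (ℕ → ℕ)} (hU : IsOpen U) {z : ℕ → ℕ} (hz : z ∈ U) :
    ∃ k, {w : ℕ → ℕ | ∀ n < k, w n = z n} ⊆ U := by
  rw [isOpen_pi_iff] at hU
  obtain ⟨I, u, hu, hsub⟩ := hU z hz
  refine ⟨I.sup id + 1, fun w hw => hsub ?_⟩
  intro n hn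
  have : n < I.sup id + 1 := Nat.lt_succ_of_le (Finset.le_sup (f := id) hn)
  rw [hw n this]
  exact (hu n hn).2

theorem exists_lusin (CH : Cardinal.continuum.{0} = Cardinal.aleph 1) :
    ∃ Z : Set (ℕ → ℕ), ¬ Z.Countable ∧
      ∀ M : Set (ℕ → ℕ), IsNowhereDense M → (Z ∩ M).Countable := by
  classical
  obtain ⟨r, wo, hr⟩ := exists_wo CH {M : Set (ℕ → ℕ) // IsClosed M} (card_closed_le _)
  have hwf : WellFounded r := wo.wf
  have hsing : ∀ y : ℕ → ℕ, interior ({y} : Set (ℕ → ℕ)) = ∅ := by
    intro y
    rw [Set.eq_empty_iff_forall_notMem]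
    intro z hz
    obtain ⟨k, hk⟩ := exists_cyl isOpen_interior hz
    have h1 : Function.update z k (z k + 1) ∈ interior ({y} : Set (ℕ → ℕ)) := by
      apply hk
      intro n hn
      rw [Function.update_of_ne (ne_of_lt hn)]
    have h2 := interior_subset h1
    have h3 := interior_subset hz
    rw [Set.mem_singleton_iff] at h2 h3
    have h4 := congrFun (h2.trans h3.symm) k
    simp at h4
  obtain ⟨z, hz⟩ := exists_rec (Y := ℕ → ℕ) r hwf
    (fun a f y => (∀ b (h : r b a), y ≠ f b h) ∧
      ∀ b, (r b a ∨ b = a) → interior b.1 = ∅ → y ∉ b.1) (by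
    intro a f
    have hc1 : ({b | r b a} : Set {M : Set (ℕ → ℕ) // IsClosed M}).Countable := hr a
    have hc2 : ({b | r b a ∨ b = a} : Set {M : Set (ℕ → ℕ) // IsClosed M}).Countable := by
      have : {b | r b a ∨ b = a} = {b | r b a} ∪ {a} := by ext b; simp [or_comm]
      rw [this]; exact hc1.union (countable_singleton a)
    let G : {M : Set (ℕ → ℕ) // IsClosed M} → Set (ℕ → ℕ) := fun b =>
      (if h : r b a then ({f b h} : Set (ℕ → ℕ))ᶜ else univ)
    let G' : {M : Set (ℕ → ℕ) // IsClosed M} → Set (ℕ → ℕ) := fun b =>
      (if interior b.1 = ∅ then b.1ᶜ else univ)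
    have hd : Dense (⋂ b ∈ {b | r b a ∨ b = a}, (G b ∩ G' b)) := by
      apply dense_biInter_of_isOpen
      · intro b _
        apply IsOpen.inter
        · by_cases h : r b a
          · simp only [G, h, dif_pos]
            exact isClosed_singleton.isOpen_compl
          · simp only [G, h, dif_neg, not_false_eq_true]; exact isOpen_univ
        · by_cases h : interior b.1 = ∅
          · simp only [G', h, if_true]; exact b.2.isOpen_compl
          · simp only [G', h, if_false]; exact isOpen_univ
      · exact hc2
      · intro b _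
        have hG : IsOpen (G b) ∧ Dense (G b) := by
          by_cases h : r b a
          · simp only [G, h, dif_pos]
            refine ⟨isClosed_singleton.isOpen_compl, ?_⟩
            rw [← interior_eq_empty_iff_dense_compl]
            exact hsing _
          · simp only [G, h, dif_neg, not_false_eq_true]
            exact ⟨isOpen_univ, dense_univ⟩
        have hG' : Dense (G' b) := by
          by_cases h : interior b.1 = ∅
          · simp only [G', h, if_true]
            rw [← interior_eq_empty_iff_dense_compl]
            exact h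
          · simp only [G', h, if_false]; exact dense_univ
        exact hG.2.inter_of_isOpen_left hG' hG.1
    obtain ⟨y, hy⟩ := hd.nonempty
    simp only [mem_iInter] at hy
    refine ⟨y, fun b h => ?_, fun b h h' => ?_⟩
    · have := (hy b (Or.inl h)).1
      simp only [G, h, dif_pos] at this
      exact this
    · have := (hy b h).2
      simp only [G', h', if_true] at this
      exact this)
  refine ⟨range z, ?_, ?_⟩
  · intro hc
    have hinj : Function.Injective z := by
      intro a b hab
      rcases trichotomous_of r a b with h | h | h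
      · exact absurd hab.symm ((hz b).1 a h)
      · exact h
      · exact absurd hab ((hz a).1 b h)
    have h1 : Countable {M : Set (ℕ → ℕ) // IsClosed M} := by
      have : Countable (range z) := hc.to_subtype
      exact (Equiv.ofInjective z hinj).injective.countable
    have h2 : Countable (ℕ → ℕ) := by
      refine Function.Injective.countable
        (f := fun y : ℕ → ℕ => (⟨{y}, isClosed_singleton⟩ : {M : Set (ℕ → ℕ) // IsClosed M})) ?_
      intro y y' h
      have := congrArg Subtype.val h
      exact Set.singleton_injective this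
    obtain ⟨F, hF⟩ := exists_surjective_nat (ℕ → ℕ)
    obtain ⟨k, hk⟩ := hF (fun n => F n n + 1)
    have := congrFun hk k
    omega
  · intro M hM
    have h1 : interior (closure M) = ∅ := hM
    let a : {M : Set (ℕ → ℕ) // IsClosed M} := ⟨closure M, isClosed_closure⟩
    refine ((hr a).image z).mono ?_
    rintro _ ⟨⟨b, rfl⟩, hb⟩
    by_contra hcon
    have hrb : ¬ r b a := fun h => hcon ⟨b, h, rfl⟩
    have hab : r a b ∨ a = b := by
      rcases trichotomous_of r a b with h | h | h
      · exact Or.inl h
      · exact Or.inr h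
      · exact absurd h hrb
    exact (hz b).2 a hab h1 (subset_closure hb)

end Pool.Agent.R510.SG
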