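import Pool.Agent.R510.SG.KeyA

/-!
Under the continuum hypothesis, for every `g` there is `g' ≥ g` and a set of reals satisfying
`S₁(Γ_g, O)` but not `S₁(Γ_g', O)`.
-/

namespace Pool.Agent.R510.SG

open Set Filter Topology

/-- The tasks of the recursion. -/
abbrev Task : Type := (ℕ × ℕ × CS) × (ℕ → ℕ → {M : Set CS // IsClosed M})

theorem card_task : Cardinal.mk Task ≤ Cardinal.continuum := by
  have h1 : Cardinal.mk CS = Cardinal.continuum := by
    simp
  have h2 : Cardinal.mk (ℕ → ℕ → {M : Set CS // IsClosed M}) ≤ Cardinal.continuum := by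
    have h3 : Cardinal.mk (ℕ → ℕ → {M : Set CS // IsClosed M}) =
        (Cardinal.mk {M : Set CS // IsClosed M} ^ Cardinal.aleph0) ^ Cardinal.aleph0 := by
      simp
    rw [h3]
    refine (Cardinal.power_le_power_right (Cardinal.power_le_power_right (card_closed_le CS))).trans
      ?_
    rw [Cardinal.continuum_power_aleph0, Cardinal.continuum_power_aleph0]
  have h4 : Cardinal.mk Task = Cardinal.mk (ℕ × ℕ × CS) *
      Cardinal.mk (ℕ → ℕ → {M : Set CS // IsClosed M}) := by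
    rw [Cardinal.mk_prod, Cardinal.lift_id, Cardinal.lift_id]
  have h5 : Cardinal.mk (ℕ × ℕ × CS) ≤ Cardinal.continuum := by
    rw [Cardinal.mk_prod, Cardinal.mk_prod, Cardinal.lift_id, Cardinal.lift_id, Cardinal.lift_id,
      h1, Cardinal.mk_nat, Cardinal.aleph0_mul_continuum, Cardinal.aleph0_mul_continuum]
  rw [h4]
  calc _ ≤ Cardinal.continuum * Cardinal.continuum := mul_le_mul' h5 h2
    _ = Cardinal.continuum := Cardinal.continuum_mul_self

theorem adm_empty (g' : ℕ → ℕ) : Adm g' 0 (fun _ => false) := by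
  intro a
  have : row (fun _ => false) a = ∅ := by ext v; simp [row]
  rw [this]
  simp

open Classical in
/-- `D` if it is admissible, and the empty set otherwise. -/
noncomputable def eff (g' : ℕ → ℕ) (D : CS) : CS :=
  if ∃ q, Adm g' q D then D else fun _ => false

theorem adm_eff (g' : ℕ → ℕ) (D : CS) : ∃ q, Adm g' q (eff g' D) := by
  by_cases h : ∃ q, Adm g' q D
  · simpa only [eff, if_pos h] using h
  · rw [eff, if_neg h]
    exact ⟨0, adm_empty g'⟩

theorem eff_eq {g' : ℕ → ℕ} {q : ℕ} {D : CS} (h : Adm g' q D) : eff g' D = D := by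
  rw [eff, if_pos ⟨q, h⟩]

theorem exists_space (CH : Cardinal.continuum.{0} = Cardinal.aleph 1) {g g' : ℕ → ℕ}
    (hg : Growth g g') (hg1 : ∀ a, 1 ≤ g' a) :
    ∃ X : Set CS, S1O X g ∧ ¬ S1O X g' := by
  classical
  obtain ⟨r, wo, hr⟩ := exists_wo CH Task card_task
  have hwf : WellFounded r := wo.wf
  let CC : Task → ℕ → ℕ → Set CS := fun a n m => (a.2 n m).1
  have hCC : ∀ a n m, IsClosed (CC a n m) := fun a n m => (a.2 n m).2
  obtain ⟨z, hz⟩ := exists_rec (Y := CS × (ℕ → ℕ)) r hwf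
    (fun a f y => y.1 ∈ PP g' a.1.1 a.1.2.1 (eff g' a.1.2.2) ∧
      (∀ b (h : r b a), Good g' (CC b) (f b h).2 → ∃ n, y.1 ∉ CC b n ((f b h).2 n)) ∧
      (∀ d, Good g' (CC a) d → (∀ b (h : r b a), ∃ n, (f b h).1 ∉ CC a n (d n)) →
        (∃ n, y.1 ∉ CC a n (d n)) →
        (Good g' (CC a) y.2 ∧ (∀ b (h : r b a), ∃ n, (f b h).1 ∉ CC a n (y.2 n)) ∧
          ∃ n, y.1 ∉ CC a n (y.2 n)))) (by
    intro a f
    have hz : ∃ y : CS, y ∈ PP g' a.1.1 a.1.2.1 (eff g' a.1.2.2) ∧
        (∀ b (h : r b a), Good g' (CC b) (f b h).2 → ∃ n, y ∉ CC b n ((f b h).2 n)) := by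
      obtain ⟨q, hq⟩ := adm_eff g' a.1.2.2
      let I : Type := {b : {b // r b a} // Good g' (CC b.1) (f b.1 b.2).2}
      have hI : Countable {b // r b a} := (hr a).to_subtype
      have hI' : Countable I := Subtype.countable
      obtain ⟨y, hy1, hy2⟩ := exists_avoid (k := a.1.1) (p := a.1.2.1) hq
        (fun b : I => ⋂ n, CC b.1.1 n ((f b.1.1 b.1.2).2 n))
        (fun b => isClosed_iInter fun n => hCC _ _ _)
        (fun b k p q D hD => b.2 k p q D hD)
      refine ⟨y, hy1, fun b h hgood => ?_⟩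
      have := hy2 ⟨⟨b, h⟩, hgood⟩
      simpa only [mem_iInter, not_forall] using this
    obtain ⟨y, hy1, hy2⟩ := hz
    by_cases hd : ∃ d, Good g' (CC a) d ∧ (∀ b (h : r b a), ∃ n, (f b h).1 ∉ CC a n (d n)) ∧
        (∃ n, y ∉ CC a n (d n))
    · obtain ⟨d, h1, h2, h3⟩ := hd
      exact ⟨(y, d), hy1, hy2, fun _ _ _ _ => ⟨h1, h2, h3⟩⟩
    · exact ⟨(y, fun _ => 0), hy1, hy2, fun d h1 h2 h3 => absurd ⟨d, h1, h2, h3⟩ hd⟩)
  let X : Set CS := range fun a => (z a).1
  have hXP : ∀ k p q D, Adm g' q D → ∃ x ∈ X, x ∈ PP g' k p D := by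
    intro k p q D hD
    let a : Task := ((k, p, D), fun _ _ => ⟨∅, isClosed_empty⟩)
    refine ⟨(z a).1, ⟨a, rfl⟩, ?_⟩
    have := (hz a).1
    rw [eff_eq (q := q) hD] at this
    exact this
  have hXrow : ∀ x ∈ X, ∀ n, (row x n).encard ≤ (g' n : ℕ∞) := by
    rintro _ ⟨a, rfl⟩ n
    obtain ⟨q, hq⟩ := adm_eff g' a.1.2.2
    refine ((hz a).1.2.2 n).trans (sup_le (hq n).1 ?_)
    exact_mod_cast Nat.sub_le _ _
  refine ⟨X, ?_, ?_⟩
  · rintro V ⟨hV1, hV2⟩
    have hW : ∀ n m, ∃ W : Set CS, IsOpen W ∧ Subtype.val ⁻¹' W = V n m := fun n m =>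
      isOpen_induced_iff.1 (hV1 n m)
    choose W hW1 hW2 using hW
    let C : ℕ → ℕ → {M : Set CS // IsClosed M} := fun n m => ⟨(W n m)ᶜ, (hW1 n m).isClosed_compl⟩
    have hC : ∀ n m, IsClosed (C n m).1 := fun n m => (C n m).2
    have hmem : ∀ (x : X) n m, x ∉ V n m ↔ x.1 ∈ (C n m).1 := by
      intro x n m
      rw [← hW2 n m]
      rfl
    have hXC : ∀ x ∈ X, ∀ n, {m | x ∈ (C n m).1}.encard ≤ (g n : ℕ∞) := by
      intro x hx n
      have h1 : {m | x ∈ (C n m).1} = {m | (⟨x, hx⟩ : X) ∉ V n m} := by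
        ext m
        exact (hmem ⟨x, hx⟩ n m).symm
      rw [h1]
      exact hV2 ⟨x, hx⟩ n
    let a : Task := ((0, 0, fun _ => false), C)
    let X0 : Set CS := (fun b => (z b).1) '' ({b | r b a} ∪ {a})
    have hX0 : X0 ⊆ X := by
      rintro _ ⟨b, _, rfl⟩
      exact ⟨b, rfl⟩
    have hX0c : X0.Countable := ((hr a).union (countable_singleton a)).image _
    obtain ⟨d, hd1, hd2⟩ := key_lemma hg hC hXP hXC hX0 hX0c
    obtain ⟨hgood, hprev, hself⟩ := (hz a).2.2 d hd1
      (fun b h => hd2 _ ⟨b, Or.inl h, rfl⟩) (hd2 _ ⟨a, Or.inr rfl, rfl⟩)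
    refine ⟨(z a).2, ?_⟩
    rintro ⟨_, b, rfl⟩
    have key : ∃ n, (z b).1 ∉ (C n ((z a).2 n)).1 := by
      rcases trichotomous_of r a b with h | h | h
      · exact (hz b).2.1 a h hgood
      · rw [← h]; exact hself
      · exact hprev b h
    obtain ⟨n, hn⟩ := key
    refine ⟨n, ?_⟩
    by_contra hcon
    exact hn ((hmem _ _ _).1 hcon)
  · intro hS
    obtain ⟨d, hd⟩ := hS (fun n m => {x : X | x.1 (n, m) = false}) (by
      refine ⟨fun n m => ?_, fun x n => ?_⟩
      · have h1 : IsOpen ((fun y : CS => y (n, m)) ⁻¹' {false}) :=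
          (isOpen_discrete _).preimage (continuous_apply _)
        exact h1.preimage continuous_subtype_val
      · have h1 : {m | x ∉ {x : X | x.1 (n, m) = false}} = row x.1 n := by
          ext m
          show ¬ (x.1 (n, m) = false) ↔ x.1 (n, m) = true
          simp
        rw [h1]
        exact hXrow x.1 x.2 n)
    have hA : Adm g' 1 (fun x => decide (x.2 = d x.1)) := by
      intro a
      have h1 : row (fun x : ℕ × ℕ => decide (x.2 = d x.1)) a = {d a} := by
        ext v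
        simp [row]
      rw [h1, Set.encard_singleton]
      have h2 := hg1 a
      exact ⟨by exact_mod_cast h2, le_of_eq (by norm_num)⟩
    obtain ⟨x, hxX, hx⟩ := hXP 0 0 1 _ hA
    obtain ⟨n, hn⟩ := hd ⟨x, hxX⟩
    have h1 : x (n, d n) = true := hx.2.1 (n, d n) (by simp)
    have h2 : x (n, d n) = false := hn
    rw [h1] at h2
    exact absurd h2 (by decide)

/-- For every `g` there is a fast growing `g'`. -/
theorem exists_growth (g : ℕ → ℕ) : ∃ g' : ℕ → ℕ, (∀ n, g n ≤ g' n) ∧ (∀ n, n + 1 ≤ g' n) ∧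
    Growth g g' := by
  let gm : ℕ → ℕ := fun a => ∑ n ∈ Finset.range (a * a + 1), g n
  have hgm : ∀ a n, n ≤ a * a → g n ≤ gm a := fun a n h =>
    Finset.single_le_sum (f := g) (fun _ _ => Nat.zero_le _) (Finset.mem_range.2 (by omega))
  refine ⟨fun a => (a + 1) * (gm a + 1) + a, fun n => ?_, fun n => ?_, ?_⟩
  · have h1 := hgm n n (Nat.le_mul_self n)
    show g n ≤ (n + 1) * (gm n + 1) + n
    nlinarith
  · show n + 1 ≤ (n + 1) * (gm n + 1) + n
    nlinarith [Nat.zero_le (gm n), Nat.zero_le n]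
  · intro k p q N0
    refine ⟨k + N0 + p + q + 1, by omega, fun a ha n hn => ?_⟩
    set j := k + N0 + p + q + 1 with hj
    have h1 : n ≤ a * a := by
      have h2 : n ≤ N0 + q * j := by omega
      have h3 : N0 + q * j ≤ j * j := by nlinarith
      have h4 : j * j ≤ a * a := Nat.mul_le_mul ha ha
      omega
    have h2 := hgm a n h1
    show p + q + (g n + 1) * q ≤ (a + 1) * (gm a + 1) + a
    have h3 : q ≤ a + 1 := by omega
    have h4 : p + q ≤ a := by omega
    have h5 : (g n + 1) * q ≤ (gm a + 1) * (a + 1) := Nat.mul_le_mul (by omega) h3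
    nlinarith

end Pool.Agent.R510.SG
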