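import Pool.Agent.R510.SG.Lusin

/-!
Under the continuum hypothesis there is a Hausdorff space satisfying `S₁(Γ_1, Γ)` which fails
`S₁(Γ_h, Γ)` for all `h` with `h n ≥ 2` infinitely often.
-/

namespace Pool.Agent.R510.SG

open Set Filter Topology

/-- The underlying set of the space: the Lusin set together with countably many points. -/
inductive Sp (Z : Set (ℕ → ℕ)) : Type
  | pt : Z → Sp Z
  | ext : ℕ × ℕ × ℕ → Sp Z

/-- A dense sequence in `ℕ → ℕ`. -/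
noncomputable def SS : ℕ → ℕ → ℕ := TopologicalSpace.denseSeq (ℕ → ℕ)

theorem exists_SS (z : ℕ → ℕ) (k : ℕ) : ∃ i, ∀ n < k, SS i n = z n := by
  have h := (TopologicalSpace.denseRange_denseSeq (ℕ → ℕ)).exists_mem_open (cyl_open z k)
    ⟨z, fun _ _ => rfl⟩
  obtain ⟨i, hi⟩ := h
  exact ⟨i, hi⟩

/-- `z` extends the `j`-th finite sequence attached to `(k, i)` with code `c`. -/
def Ext (k i c j : ℕ) (z : ℕ → ℕ) : Prop :=
  (∀ n < k, z n = SS i n) ∧ ∀ n, k ≤ n → n < k + 1 + j → z n = Nat.pair c j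

/-- The neighbourhoods of the additional points. -/
def OO (e : ℕ × ℕ × ℕ) (J : ℕ) : Set (ℕ → ℕ) :=
  {z | ∃ j ≥ J, Ext e.1 e.2.1 (Encodable.encode e) j z ∨ Ext e.1 e.2.2 (Encodable.encode e) j z}

theorem OO_anti (e : ℕ × ℕ × ℕ) {J J' : ℕ} (h : J ≤ J') : OO e J' ⊆ OO e J := by
  rintro z ⟨j, hj, hz⟩
  exact ⟨j, le_trans h hj, hz⟩

instance (Z : Set (ℕ → ℕ)) : TopologicalSpace (Sp Z) where
  IsOpen U := (∀ z : Z, Sp.pt z ∈ U → ∃ k, ∀ w : Z, (∀ n < k, w.1 n = z.1 n) → Sp.pt w ∈ U) ∧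
    ∀ e, Sp.ext e ∈ U → ∃ J, ∀ w : Z, w.1 ∈ OO e J → Sp.pt w ∈ U
  isOpen_univ := ⟨fun _ _ => ⟨0, fun _ _ => mem_univ _⟩, fun _ _ => ⟨0, fun _ _ => mem_univ _⟩⟩
  isOpen_inter := by
    rintro U V ⟨hU1, hU2⟩ ⟨hV1, hV2⟩
    refine ⟨fun z hz => ?_, fun e he => ?_⟩
    · obtain ⟨k, hk⟩ := hU1 z hz.1
      obtain ⟨l, hl⟩ := hV1 z hz.2
      refine ⟨max k l, fun w hw => ⟨hk w fun n hn => hw n (lt_of_lt_of_le hn (le_max_left _ _)),
        hl w fun n hn => hw n (lt_of_lt_of_le hn (le_max_right _ _))⟩⟩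
    · obtain ⟨k, hk⟩ := hU2 e he.1
      obtain ⟨l, hl⟩ := hV2 e he.2
      exact ⟨max k l, fun w hw => ⟨hk w (OO_anti e (le_max_left _ _) hw),
        hl w (OO_anti e (le_max_right _ _) hw)⟩⟩
  isOpen_sUnion := by
    intro S hS
    refine ⟨fun z hz => ?_, fun e he => ?_⟩
    · obtain ⟨U, hU, hz⟩ := hz
      obtain ⟨k, hk⟩ := (hS U hU).1 z hz
      exact ⟨k, fun w hw => ⟨U, hU, hk w hw⟩⟩
    · obtain ⟨U, hU, hz⟩ := he
      obtain ⟨k, hk⟩ := (hS U hU).2 e hz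
      exact ⟨k, fun w hw => ⟨U, hU, hk w hw⟩⟩

theorem sp_isOpen {Z : Set (ℕ → ℕ)} {U : Set (Sp Z)} : IsOpen U ↔
    (∀ z : Z, Sp.pt z ∈ U → ∃ k, ∀ w : Z, (∀ n < k, w.1 n = z.1 n) → Sp.pt w ∈ U) ∧
    ∀ e, Sp.ext e ∈ U → ∃ J, ∀ w : Z, w.1 ∈ OO e J → Sp.pt w ∈ U := Iff.rfl

theorem isOpen_pt {Z : Set (ℕ → ℕ)} (n m : ℕ) : IsOpen {x : Sp Z | ∃ v : Z, x = Sp.pt v ∧
    v.1 n = m} := by
  rw [sp_isOpen]
  refine ⟨?_, ?_⟩
  · rintro z ⟨v, hv, hn⟩
    refine ⟨n + 1, fun w hw => ⟨w, rfl, ?_⟩⟩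
    cases hv
    rw [hw n (Nat.lt_succ_self n)]; exact hn
  · rintro e ⟨v, hv, _⟩
    cases hv

/-- The basic neighbourhoods of the additional points. -/
def NB {Z : Set (ℕ → ℕ)} (e : ℕ × ℕ × ℕ) (J : ℕ) : Set (Sp Z) :=
  {x | x = Sp.ext e ∨ ∃ v : Z, x = Sp.pt v ∧ v.1 ∈ OO e J}

theorem isOpen_NB {Z : Set (ℕ → ℕ)} (e : ℕ × ℕ × ℕ) (J : ℕ) : IsOpen (NB e J : Set (Sp Z)) := by
  rw [sp_isOpen]
  refine ⟨?_, ?_⟩
  · rintro z (h | ⟨v, hv, j, hj, hn⟩)
    · cases h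
    · cases hv
      refine ⟨e.1 + 1 + j, fun w hw => Or.inr ⟨w, rfl, j, hj, ?_⟩⟩
      rcases hn with hn | hn
      · left
        refine ⟨fun n hn' => ?_, fun n h1 h2 => ?_⟩
        · rw [hw n (by omega)]; exact hn.1 n hn'
        · rw [hw n h2]; exact hn.2 n h1 h2
      · right
        refine ⟨fun n hn' => ?_, fun n h1 h2 => ?_⟩
        · rw [hw n (by omega)]; exact hn.1 n hn'
        · rw [hw n h2]; exact hn.2 n h1 h2
  · rintro e' (h | ⟨v, hv, _⟩)
    · cases h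
      exact ⟨J, fun w hw => Or.inr ⟨w, rfl, hw⟩⟩
    · cases hv

theorem OO_val {e : ℕ × ℕ × ℕ} {J n : ℕ} {z : ℕ → ℕ} (hz : z ∈ OO e J) (hn : e.1 ≤ n)
    (hJ : n ≤ e.1 + J) : ∃ j ≥ J, z n = Nat.pair (Encodable.encode e) j := by
  obtain ⟨j, hj, h | h⟩ := hz
  · exact ⟨j, hj, h.2 n hn (by omega)⟩
  · exact ⟨j, hj, h.2 n hn (by omega)⟩

theorem sp_t2 (Z : Set (ℕ → ℕ)) : T2Space (Sp Z) := by
  have h1 : ∀ (z : Z) (e : ℕ × ℕ × ℕ), ∃ u v : Set (Sp Z), IsOpen u ∧ IsOpen v ∧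
      Sp.pt z ∈ u ∧ Sp.ext e ∈ v ∧ Disjoint u v := by
    intro z e
    refine ⟨{x : Sp Z | ∃ v : Z, x = Sp.pt v ∧ v.1 e.1 = z.1 e.1}, NB e (z.1 e.1 + 1),
      isOpen_pt _ _, isOpen_NB _ _, ⟨z, rfl, rfl⟩, Or.inl rfl, ?_⟩
    rw [Set.disjoint_left]
    rintro x ⟨v, rfl, hv⟩ (h | ⟨w, hw, hO⟩)
    · cases h
    · cases hw
      obtain ⟨j, hj, hjv⟩ := OO_val hO le_rfl (by omega)
      have := Nat.right_le_pair (Encodable.encode e) j
      omega
  refine ⟨?_⟩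
  rintro (z | e) (w | e') hne
  · have hne' : ∃ n, z.1 n ≠ w.1 n := by
      by_contra hcon
      push Not at hcon
      exact hne (congrArg Sp.pt (Subtype.ext (funext hcon)))
    obtain ⟨n, hn⟩ := hne'
    refine ⟨_, _, isOpen_pt n (z.1 n), isOpen_pt n (w.1 n), ⟨z, rfl, rfl⟩, ⟨w, rfl, rfl⟩, ?_⟩
    rw [Set.disjoint_left]
    rintro x ⟨v, rfl, hv⟩ ⟨v', hv', h'⟩
    cases hv'
    exact hn (hv.symm.trans h')
  · exact h1 z e'
  · obtain ⟨u, v, hu, hv, h2, h3, h4⟩ := h1 w e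
    exact ⟨v, u, hv, hu, h3, h2, h4.symm⟩
  · refine ⟨_, _, isOpen_NB e (max e.1 e'.1), isOpen_NB e' (max e.1 e'.1), Or.inl rfl,
      Or.inl rfl, ?_⟩
    rw [Set.disjoint_left]
    rintro x (h | ⟨v, rfl, hv⟩) (h' | ⟨w, hw, hw'⟩)
    · exact hne (h.symm.trans h')
    · rw [h] at hw; cases hw
    · cases h'
    · cases hw
      obtain ⟨j, _, hj⟩ := OO_val hv (le_max_left e.1 e'.1) (by omega)
      obtain ⟨j', _, hj'⟩ := OO_val hw' (le_max_right e.1 e'.1) (by omega)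
      have := (Nat.pair_eq_pair.1 (hj.symm.trans hj')).1
      exact hne (congrArg Sp.ext (Encodable.encode_injective this))

/-- The input witnessing the failure. -/
def VV (Z : Set (ℕ → ℕ)) (n m : ℕ) : Set (Sp Z) :=
  {x | (∀ z, x = Sp.pt z → z.1 n ≠ m) ∧
    ∀ e : ℕ × ℕ × ℕ, x = Sp.ext e → n < e.1 → SS e.2.1 n ≠ m ∧ SS e.2.2 n ≠ m}

theorem isOpen_VV (Z : Set (ℕ → ℕ)) (n m : ℕ) : IsOpen (VV Z n m) := by
  rw [sp_isOpen]
  refine ⟨fun z hz => ⟨n + 1, fun w hw => ⟨?_, ?_⟩⟩, fun e he => ⟨n + m + 1, fun w hw => ⟨?_, ?_⟩⟩⟩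
  · rintro z' h
    cases h
    rw [hw n (Nat.lt_succ_self n)]
    exact hz.1 z rfl
  · rintro e h
    cases h
  · rintro z' h
    cases h
    have he' := he.2 e rfl
    by_cases hn : n < e.1
    · obtain ⟨j, _, h | h⟩ := hw
      · rw [h.1 n hn]; exact (he' hn).1
      · rw [h.1 n hn]; exact (he' hn).2
    · obtain ⟨j, hj, hj'⟩ := OO_val hw (not_lt.1 hn) (by omega)
      have := Nat.right_le_pair (Encodable.encode e) j
      omega
  · rintro e' h
    cases h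

theorem VV_card (Z : Set (ℕ → ℕ)) (x : Sp Z) (n : ℕ) : {m | x ∉ VV Z n m}.encard ≤ 2 := by
  rcases x with z | e
  · have : {m | Sp.pt z ∉ VV Z n m} ⊆ {z.1 n} := by
      intro m hm
      by_contra hcon
      apply hm
      refine ⟨?_, ?_⟩
      · rintro z' h
        cases h
        exact fun h => hcon h.symm
      · rintro e h
        cases h
    refine (Set.encard_le_encard this).trans ?_
    rw [Set.encard_singleton]
    exact one_le_two
  · have : {m | Sp.ext e ∉ VV Z n m} ⊆ {SS e.2.1 n, SS e.2.2 n} := by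
      intro m hm
      by_contra hcon
      apply hm
      refine ⟨?_, ?_⟩
      · rintro z' h
        cases h
      · rintro e' h _
        cases h
        simp only [mem_insert_iff, mem_singleton_iff, not_or] at hcon
        exact ⟨fun h => hcon.1 h.symm, fun h => hcon.2 h.symm⟩
    refine (Set.encard_le_encard this).trans ((Set.encard_insert_le _ _).trans ?_)
    rw [Set.encard_singleton]
    exact le_of_eq one_add_one_eq_two

theorem not_S1G (Z : Set (ℕ → ℕ)) (hZ : ¬ Z.Countable)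
    (hZ' : ∀ M : Set (ℕ → ℕ), IsNowhereDense M → (Z ∩ M).Countable) (h : ℕ → ℕ)
    (hh : ∃ᶠ n in atTop, 2 ≤ h n) : ¬ S1G (Sp Z) h := by
  classical
  intro hS
  obtain ⟨d, hd⟩ := hS (fun n m => if 2 ≤ h n then VV Z n m else univ) (by
    refine ⟨fun n m => ?_, fun x n => ?_⟩
    · by_cases hn : 2 ≤ h n
      · simp only [hn, if_true]; exact isOpen_VV Z n m
      · simp only [hn, if_false]; exact isOpen_univ
    · by_cases hn : 2 ≤ h n
      · simp only [hn, if_true]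
        refine (VV_card Z x n).trans ?_
        exact_mod_cast hn
      · simp only [hn, if_false]
        simp)
  apply hZ
  have hcov : Z ⊆ ⋃ N : ℕ, (Z ∩ {z | ∀ n ≥ N, 2 ≤ h n → z n ≠ d n}) := by
    intro z hz
    obtain ⟨N, hN⟩ := eventually_atTop.1 (hd (Sp.pt ⟨z, hz⟩))
    refine mem_iUnion.2 ⟨N, hz, fun n hn h2 => ?_⟩
    have := hN n hn
    simp only [h2, if_true] at this
    exact this.1 ⟨z, hz⟩ rfl
  refine Set.Countable.mono hcov (countable_iUnion fun N => hZ' _ ?_)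
  have hcl : IsClosed {z : ℕ → ℕ | ∀ n ≥ N, 2 ≤ h n → z n ≠ d n} := by
    have : {z : ℕ → ℕ | ∀ n ≥ N, 2 ≤ h n → z n ≠ d n} =
        ⋂ n, ⋂ (_ : n ≥ N), ⋂ (_ : 2 ≤ h n), {z : ℕ → ℕ | z n ≠ d n} := by
      ext z; simp
    rw [this]
    refine isClosed_iInter fun n => isClosed_iInter fun _ => isClosed_iInter fun _ => ?_
    have h1 : IsClosed ((fun z : ℕ → ℕ => z n) ⁻¹' {d n}ᶜ) :=
      (isClosed_discrete _).preimage (continuous_apply n)
    exact h1
  show interior (closure _) = ∅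
  rw [hcl.closure_eq, Set.eq_empty_iff_forall_notMem]
  intro z hz
  obtain ⟨k, hk⟩ := exists_cyl isOpen_interior hz
  obtain ⟨n, hn, h2⟩ := (frequently_atTop.1 hh) (max k N)
  have h3 : Function.update z n (d n) ∈ interior {z : ℕ → ℕ | ∀ n ≥ N, 2 ≤ h n → z n ≠ d n} := by
    apply hk
    intro i hi
    have : i ≠ n := by
      have := le_trans (le_max_left k N) hn
      omega
    rw [Function.update_of_ne this]
  have h4 := interior_subset h3 n (le_trans (le_max_right k N) hn) h2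
  simp at h4

/-- The trace on the Lusin set of the complement of a set. -/
def TR {Z : Set (ℕ → ℕ)} (V : Set (Sp Z)) : Set (ℕ → ℕ) := {z | ∃ w : Z, w.1 = z ∧ Sp.pt w ∉ V}

theorem link {Z : Set (ℕ → ℕ)} (V V' : Set (Sp Z)) (hV : IsOpen V) (hV' : IsOpen V')
    (h : ¬ IsNowhereDense (TR V)) (h' : ¬ IsNowhereDense (TR V')) :
    ∃ x, x ∉ V ∧ x ∉ V' := by
  have h1 : (interior (closure (TR V))).Nonempty := Set.nonempty_iff_ne_empty.2 h
  have h1' : (interior (closure (TR V'))).Nonempty := Set.nonempty_iff_ne_empty.2 h'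
  obtain ⟨z, hz⟩ := h1
  obtain ⟨z', hz'⟩ := h1'
  obtain ⟨k, hk⟩ := exists_cyl isOpen_interior hz
  obtain ⟨k', hk'⟩ := exists_cyl isOpen_interior hz'
  obtain ⟨i, hi⟩ := exists_SS z (max k k')
  obtain ⟨i', hi'⟩ := exists_SS z' (max k k')
  set e : ℕ × ℕ × ℕ := (max k k', i, i') with he
  -- a point extending a finite sequence
  have key : ∀ (W : Set (Sp Z)) (y : ℕ → ℕ) (l ii : ℕ), IsOpen W → l ≤ e.1 →
      {w : ℕ → ℕ | ∀ n < l, w n = y n} ⊆ interior (closure (TR W)) →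
      (∀ n < e.1, SS ii n = y n) →
      (ii = e.2.1 ∨ ii = e.2.2) → Sp.ext e ∉ W := by
    intro W y l ii hW hl hsub hii hor hmem
    obtain ⟨J, hJ⟩ := (sp_isOpen.1 hW).2 e hmem
    let y' : ℕ → ℕ := fun n => if n < e.1 then y n else Nat.pair (Encodable.encode e) J
    have hy' : y' ∈ closure (TR W) := by
      apply interior_subset
      apply hsub
      intro n hn
      simp only [y', lt_of_lt_of_le hn hl, if_true]
    have hopen := cyl_open y' (e.1 + 1 + J)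
    obtain ⟨w, hw1, ⟨v, hv, hv'⟩⟩ := mem_closure_iff.1 hy' _ hopen (fun _ _ => rfl)
    apply hv'
    apply hJ
    have hext : Ext e.1 ii (Encodable.encode e) J v.1 := by
      rw [hv]
      refine ⟨fun n hn => ?_, fun n h1 h2 => ?_⟩
      · rw [hw1 n (by omega), hii n hn]
        simp only [y', hn, if_true]
      · rw [hw1 n h2]
        simp only [y', not_lt.2 h1, if_false]
    rcases hor with h | h
    · rw [h] at hext; exact ⟨J, le_rfl, Or.inl hext⟩
    · rw [h] at hext; exact ⟨J, le_rfl, Or.inr hext⟩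
  refine ⟨Sp.ext e, ?_, ?_⟩
  · exact key V z k i hV (le_max_left _ _) hk hi (Or.inl rfl)
  · exact key V' z' k' i' hV' (le_max_right _ _) hk' hi' (Or.inr rfl)

theorem S1G_one (Z : Set (ℕ → ℕ))
    (hZ' : ∀ M : Set (ℕ → ℕ), IsNowhereDense M → (Z ∩ M).Countable) :
    S1G (Sp Z) (fun _ => 1) := by
  classical
  rintro V ⟨hV1, hV2⟩
  -- the exceptional index
  have hm : ∀ n, ∃ mn, ∀ m, m ≠ mn → IsNowhereDense (TR (V n m)) := by
    intro n
    by_cases hex : ∃ m, ¬ IsNowhereDense (TR (V n m))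
    · obtain ⟨mn, hmn⟩ := hex
      refine ⟨mn, fun m hm => ?_⟩
      by_contra hcon
      obtain ⟨x, hx1, hx2⟩ := link (V n m) (V n mn) (hV1 _ _) (hV1 _ _) hcon hmn
      have h1 : ({m, mn} : Set ℕ).encard ≤ 1 := by
        refine (Set.encard_le_encard ?_).trans (hV2 x n)
        intro a ha
        rcases ha with rfl | ha
        · exact hx1
        · rw [Set.mem_singleton_iff.1 ha]; exact hx2
      rw [Set.encard_pair hm] at h1
      exact absurd h1 (by decide)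
    · push Not at hex
      exact ⟨0, fun m _ => hex m⟩
  choose mn hmn using hm
  -- the remaining points
  let X0 : Set (Sp Z) := range Sp.ext ∪ ⋃ n : ℕ, ⋃ m : ℕ, {x | x ∉ V n m ∧ m ≠ mn n ∧
    ∃ w, x = Sp.pt w}
  have hX0 : X0.Countable := by
    refine (countable_range _).union (countable_iUnion fun n => countable_iUnion fun m => ?_)
    by_cases hmm : m ≠ mn n
    · have h1 := hZ' _ (hmn n m hmm)
      have h2 : {x : Sp Z | x ∉ V n m ∧ m ≠ mn n ∧ ∃ w, x = Sp.pt w} ⊆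
          (fun z : ℕ → ℕ => if h : z ∈ Z then Sp.pt ⟨z, h⟩ else Sp.ext (0, 0, 0)) ''
            (Z ∩ TR (V n m)) := by
        rintro x ⟨hx, _, w, rfl⟩
        refine ⟨w.1, ⟨w.2, w, rfl, hx⟩, ?_⟩
        simp
      exact (h1.image _).mono h2
    · refine Set.Countable.mono (s₂ := ∅) ?_ countable_empty
      rintro x ⟨_, h, _⟩
      exact (hmm h).elim
  have hX0ne : X0.Nonempty := ⟨Sp.ext (0, 0, 0), Or.inl ⟨_, rfl⟩⟩
  obtain ⟨f, hf⟩ := hX0.exists_eq_range hX0ne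
  have hd : ∀ n, ∃ m, m ≠ mn n ∧ ∀ i ≤ n, f i ∈ V n m := by
    intro n
    have hfin : ({mn n} ∪ ⋃ i ∈ Finset.range (n + 1), {m | f i ∉ V n m} : Set ℕ).Finite := by
      refine (finite_singleton _).union (Set.Finite.biUnion (Finset.finite_toSet _) ?_)
      intro i _
      apply Set.finite_of_encard_le_coe (k := 1)
      exact hV2 (f i) n
    obtain ⟨m, hm⟩ := hfin.exists_notMem
    refine ⟨m, fun h => hm (Or.inl h), fun i hi => ?_⟩
    by_contra hcon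
    apply hm
    right
    simp only [mem_iUnion]
    exact ⟨i, Finset.mem_range.2 (by omega), hcon⟩
  choose d hd1 hd2 using hd
  refine ⟨d, fun x => ?_⟩
  by_cases hx : x ∈ X0
  · rw [hf] at hx
    obtain ⟨i, rfl⟩ := hx
    exact eventually_atTop.2 ⟨i, fun n hn => hd2 n i hn⟩
  · refine Filter.Eventually.of_forall fun n => ?_
    by_contra hcon
    apply hx
    rcases x with w | e
    · right
      simp only [mem_iUnion]
      exact ⟨n, d n, hcon, hd1 n, w, rfl⟩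
    · left
      exact ⟨e, rfl⟩

end Pool.Agent.R510.SG
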