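import Pool.Agent.R510.SG.Lusin

/-!
The compact space of subsets of `ℕ × ℕ` and the compact sets `PP k p D`.
-/

namespace Pool.Agent.R510.SG

open Set Filter Topology

/-- The Cantor space of all subsets of `ℕ × ℕ`. -/
abbrev CS : Type := ℕ × ℕ → Bool

/-- The row `a` of `y`. -/
def row (y : CS) (a : ℕ) : Set ℕ := {v | y (a, v) = true}

theorem isClosed_card {ι : Type} (n : ℕ) : IsClosed {y : ι → Bool | {i | y i = true}.encard ≤ n} := by
  classical
  rw [← isOpen_compl_iff, isOpen_iff_forall_mem_open]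
  intro y hy
  have h1 : ((n + 1 : ℕ) : ℕ∞) ≤ {i | y i = true}.encard := by
    have : (n : ℕ∞) < {i | y i = true}.encard := not_le.1 hy
    exact Order.add_one_le_of_lt this
  obtain ⟨t, ht, hcard⟩ := Set.exists_subset_encard_eq h1
  have htf : t.Finite := Set.finite_of_encard_eq_coe hcard
  refine ⟨⋂ i ∈ t, (fun y : ι → Bool => y i) ⁻¹' {true}, ?_, ?_, ?_⟩
  · intro y' hy'
    simp only [mem_iInter, mem_preimage, mem_singleton_iff] at hy'
    have h2 : t ⊆ {i | y' i = true} := fun i hi => hy' i hi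
    have h3 := Set.encard_le_encard h2
    rw [hcard] at h3
    intro hcon
    have h4 : ((n + 1 : ℕ) : ℕ∞) ≤ n := h3.trans hcon
    have h5 : n + 1 ≤ n := by exact_mod_cast h4
    omega
  · exact htf.isOpen_biInter fun i _ => (isOpen_discrete _).preimage (continuous_apply i)
  · simp only [mem_iInter, mem_preimage, mem_singleton_iff]
    exact fun i hi => ht hi

theorem isClosed_row (a n : ℕ) : IsClosed {y : CS | (row y a).encard ≤ n} := by
  have h1 : Continuous (fun y : CS => fun v : ℕ => y (a, v)) :=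
    continuous_pi fun v => continuous_apply (a, v)
  exact (isClosed_card (ι := ℕ) n).preimage h1

theorem isOpen_sup {F : CS} {t : Set (ℕ × ℕ)} (ht : t.Finite) :
    IsOpen {y : CS | ∀ x ∈ t, F x = true → y x = true} := by
  have : {y : CS | ∀ x ∈ t, F x = true → y x = true} =
      ⋂ x ∈ t, {y : CS | F x = true → y x = true} := by
    ext y; simp
  rw [this]
  refine ht.isOpen_biInter fun x _ => ?_
  by_cases h : F x = true
  · have h2 : IsOpen ((fun y : CS => y x) ⁻¹' {true}) :=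
      (isOpen_discrete _).preimage (continuous_apply x)
    have h3 : {y : CS | F x = true → y x = true} = (fun y : CS => y x) ⁻¹' {true} := by
      ext y; simp [h]
    rw [h3]; exact h2
  · have h3 : {y : CS | F x = true → y x = true} = univ := by
      ext y; simp [h]
    rw [h3]; exact isOpen_univ

theorem exists_sq {U : Set CS} (hU : IsOpen U) {z : CS} (hz : z ∈ U) :
    ∃ k, {w : CS | ∀ a < k, ∀ v < k, w (a, v) = z (a, v)} ⊆ U := by
  rw [isOpen_pi_iff] at hU
  obtain ⟨I, u, hu, hsub⟩ := hU z hz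
  refine ⟨I.sup (fun x => x.1 + x.2) + 1, fun w hw => hsub ?_⟩
  intro x hx
  have h1 : x.1 + x.2 < I.sup (fun x => x.1 + x.2) + 1 :=
    Nat.lt_succ_of_le (Finset.le_sup (f := fun x : ℕ × ℕ => x.1 + x.2) hx)
  have h2 := hw x.1 (by omega) x.2 (by omega)
  have h3 : w x = z x := h2
  rw [h3]
  exact (hu x hx).2

/-- `D` has rows of size at most `g' a` and at most `q`. -/
def Adm (g' : ℕ → ℕ) (q : ℕ) (D : CS) : Prop :=
  ∀ a, (row D a).encard ≤ (g' a : ℕ∞) ∧ (row D a).encard ≤ (q : ℕ∞)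

theorem isClosed_Adm (g' : ℕ → ℕ) (q : ℕ) : IsClosed {D : CS | Adm g' q D} := by
  have : {D : CS | Adm g' q D} = ⋂ a, ({D : CS | (row D a).encard ≤ (g' a : ℕ∞)} ∩
      {D : CS | (row D a).encard ≤ (q : ℕ∞)}) := by
    ext D; simp [Adm]
  rw [this]
  exact isClosed_iInter fun a => (isClosed_row a _).inter (isClosed_row a _)

/-- The compact sets `P(k, p, D)`. -/
def PP (g' : ℕ → ℕ) (k p : ℕ) (D : CS) : Set CS :=
  {y | (∀ a < k, ∀ v < k, y (a, v) = D (a, v)) ∧ (∀ x, D x = true → y x = true) ∧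
    ∀ a, (row y a).encard ≤ (row D a).encard ⊔ ((g' a - p : ℕ) : ℕ∞)}

theorem isClosed_PP {g' : ℕ → ℕ} {q : ℕ} (k p : ℕ) {D : CS} (hD : Adm g' q D) :
    IsClosed (PP g' k p D) := by
  have : PP g' k p D = (⋂ a, ⋂ (_ : a < k), ⋂ v, ⋂ (_ : v < k), {y : CS | y (a, v) = D (a, v)}) ∩
      ((⋂ x, ⋂ (_ : D x = true), {y : CS | y x = true}) ∩
        ⋂ a, {y : CS | (row y a).encard ≤ (row D a).encard ⊔ ((g' a - p : ℕ) : ℕ∞)}) := by
    ext y; simp [PP]
  rw [this]
  refine IsClosed.inter ?_ (IsClosed.inter ?_ ?_)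
  · exact isClosed_iInter fun a => isClosed_iInter fun _ => isClosed_iInter fun v =>
      isClosed_iInter fun _ => isClosed_eq (continuous_apply _) continuous_const
  · exact isClosed_iInter fun x => isClosed_iInter fun _ =>
      isClosed_eq (continuous_apply _) continuous_const
  · refine isClosed_iInter fun a => ?_
    have hfin : (row D a).encard ≠ ⊤ := by
      intro h
      have := (hD a).2
      rw [h] at this
      exact absurd (top_le_iff.1 this) (ENat.coe_ne_top q)
    obtain ⟨n, hn⟩ := ENat.ne_top_iff_exists.1 hfin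
    rw [← hn]
    have h2 : ((n : ℕ∞) ⊔ ((g' a - p : ℕ) : ℕ∞)) = ((n ⊔ (g' a - p) : ℕ) : ℕ∞) := by
      push_cast; rfl
    rw [h2]
    exact isClosed_row a _

theorem self_mem_PP (g' : ℕ → ℕ) (k p : ℕ) (D : CS) : D ∈ PP g' k p D :=
  ⟨fun _ _ _ _ => rfl, fun _ h => h, fun _ => le_sup_left⟩

/-- Inside every nonempty relatively open subset of `PP` there is a smaller set of this kind. -/
theorem exists_sub {g' : ℕ → ℕ} {q k p : ℕ} {D : CS} (hD : Adm g' q D) {y0 : CS}
    (hy0 : y0 ∈ PP g' k p D) (k' : ℕ) :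
    ∃ (k1 q1 : ℕ) (D1 : CS), Adm g' q1 D1 ∧ PP g' k1 p D1 ⊆ PP g' k p D ∩
      {y | ∀ a < k', ∀ v < k', y (a, v) = y0 (a, v)} := by
  classical
  set K := max k k' with hK
  let D1 : CS := fun x => D x || (decide (x.1 < K) && decide (x.2 < K) && y0 x)
  have hD1 : ∀ x, D1 x = true ↔ D x = true ∨ (x.1 < K ∧ x.2 < K ∧ y0 x = true) := by
    intro x
    simp [D1, and_assoc]
  have hsub : ∀ x, D1 x = true → y0 x = true := by
    intro x hx
    rcases (hD1 x).1 hx with h | h
    · exact hy0.2.1 x h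
    · exact h.2.2
  have hrow : ∀ a, row D1 a ⊆ row y0 a := fun a v hv => hsub _ hv
  have heq : ∀ a < K, ∀ v < K, D1 (a, v) = y0 (a, v) := by
    intro a ha v hv
    rw [Bool.eq_iff_iff]
    exact ⟨hsub _, fun h => (hD1 _).2 (Or.inr ⟨ha, hv, h⟩)⟩
  refine ⟨K, q + K, D1, ?_, ?_⟩
  · intro a
    constructor
    · refine (Set.encard_le_encard (hrow a)).trans ((hy0.2.2 a).trans (sup_le (hD a).1 ?_))
      exact_mod_cast Nat.sub_le _ _
    · have h1 : row D1 a ⊆ row D a ∪ (Finset.range K : Set ℕ) := by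
        intro v hv
        rcases (hD1 _).1 hv with h | h
        · exact Or.inl h
        · exact Or.inr (by simpa using h.2.1)
      refine (Set.encard_le_encard h1).trans ((Set.encard_union_le _ _).trans ?_)
      rw [Set.encard_coe_eq_coe_finsetCard, Finset.card_range]
      push_cast
      exact add_le_add (hD a).2 le_rfl
  · intro y hy
    refine ⟨⟨?_, ?_, ?_⟩, ?_⟩
    · intro a ha v hv
      have h1 := lt_of_lt_of_le ha (le_max_left k k')
      have h2 := lt_of_lt_of_le hv (le_max_left k k')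
      rw [hy.1 a h1 v h2, heq a h1 v h2, hy0.1 a ha v hv]
    · intro x hx
      exact hy.2.1 x ((hD1 x).2 (Or.inl hx))
    · intro a
      refine (hy.2.2 a).trans (sup_le ?_ le_sup_right)
      exact (Set.encard_le_encard (hrow a)).trans (hy0.2.2 a)
    · intro a ha v hv
      have h1 := lt_of_lt_of_le ha (le_max_right k k')
      have h2 := lt_of_lt_of_le hv (le_max_right k k')
      rw [hy.1 a h1 v h2, heq a h1 v h2]

/-- Baire category in `PP`. -/
theorem exists_avoid {g' : ℕ → ℕ} {q k p : ℕ} {D : CS} (hD : Adm g' q D) {I : Type}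
    [Countable I] (Q : I → Set CS) (hQ : ∀ i, IsClosed (Q i))
    (hgood : ∀ i k p q D, Adm g' q D → ¬ PP g' k p D ⊆ Q i) :
    ∃ y ∈ PP g' k p D, ∀ i, y ∉ Q i := by
  have hcl := isClosed_PP k p hD
  haveI : CompactSpace (PP g' k p D) := isCompact_iff_compactSpace.1 hcl.isCompact
  haveI : Nonempty (PP g' k p D) := ⟨⟨D, self_mem_PP _ _ _ _⟩⟩
  have hdense : Dense (⋂ i, {y : PP g' k p D | y.1 ∉ Q i}) := by
    apply dense_iInter_of_isOpen
    · intro i
      exact ((hQ i).isOpen_compl).preimage continuous_subtype_val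
    · intro i
      rw [dense_iff_inter_open]
      rintro O hO ⟨y0, hy0⟩
      obtain ⟨U, hU, rfl⟩ := isOpen_induced_iff.1 hO
      obtain ⟨k', hk'⟩ := exists_sq hU hy0
      obtain ⟨k1, q1, D1, hA, hsub⟩ := exists_sub hD y0.2 k'
      obtain ⟨y, hy1, hy2⟩ := Set.not_subset.1 (hgood i k1 p q1 D1 hA)
      exact ⟨⟨y, (hsub hy1).1⟩, hk' (hsub hy1).2, hy2⟩
  obtain ⟨y, hy⟩ := hdense.nonempty
  exact ⟨y.1, y.2, fun i => (mem_iInter.1 hy) i⟩

end Pool.Agent.R510.SG
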