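import Pool.Agent.R510.SG.Defs

/-!
Changing finitely many values of `h` between positive numbers does not matter for `S₁(Γ_h, Γ)`.
-/

namespace Pool.Agent.R510.SG

open Set Filter

theorem S1G_congr {h h' : ℕ → ℕ} (hh : ∀ᶠ n in atTop, h n = h' n) (X : Type)
    [TopologicalSpace X] (hS : S1G X h) : S1G X h' := by
  classical
  rintro V ⟨hV1, hV2⟩
  obtain ⟨d, hd⟩ := hS (fun n m => if h n = h' n then V n m else univ) (by
    refine ⟨fun n m => ?_, fun x n => ?_⟩
    · by_cases hn : h n = h' n
      · simp only [hn, if_true]; exact hV1 n m
      · simp only [hn, if_false]; exact isOpen_univ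
    · by_cases hn : h n = h' n
      · simp only [hn, if_true]
        exact hV2 x n
      · simp only [hn, if_false]
        simp)
  refine ⟨d, fun x => ?_⟩
  filter_upwards [hd x, hh] with n h1 h2
  simpa only [h2, if_true] using h1

end Pool.Agent.R510.SG
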